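import Pool.Agent.Helper74.UB.Goals3

/-!
# Packet UB-SQ
-/

set_option autoImplicit false

namespace Pool.Agent.Helper87.UB

open Finset Equiv Helper28.VF Pool.Agent.Helper74.UB
open scoped Classical

/-- A cycle of length dividing four. -/
theorem cyc4 {D : Type} (φ : Perm D) (a b c d : D) (h1 : φ a = b) (h2 : φ b = c) (h3 : φ c = d)
    (h4 : φ d = a) (x : D) : φ.SameCycle a x ↔ x = a ∨ x = b ∨ x = c ∨ x = d := by
  have g1 : φ.symm b = a := by rw [← h1]; simp
  have g2 : φ.symm c = b := by rw [← h2]; simp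
  have g3 : φ.symm d = c := by rw [← h3]; simp
  have g4 : φ.symm a = d := by rw [← h4]; simp
  constructor
  · rintro ⟨n, rfl⟩
    induction n using Int.induction_on with
    | zero => left; rfl
    | succ n ih =>
      have : (φ ^ ((n : ℤ) + 1)) a = φ ((φ ^ (n : ℤ)) a) := by
        rw [add_comm, zpow_add, zpow_one]; rfl
      rw [this]
      rcases ih with h | h | h | h <;> rw [h]
      · right; left; exact h1
      · right; right; left; exact h2
      · right; right; right; exact h3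
      · left; exact h4
    | pred n ih =>
      have : (φ ^ (-(n : ℤ) - 1)) a = φ.symm ((φ ^ (-(n : ℤ))) a) := by
        rw [sub_eq_add_neg, add_comm, zpow_add, zpow_neg_one]; rfl
      rw [this]
      rcases ih with h | h | h | h <;> rw [h]
      · right; right; right; exact g4
      · left; exact g1
      · right; left; exact g2
      · right; right; left; exact g3
  · rintro (h | h | h | h)
    · rw [h]
    · rw [h, ← h1]; exact ⟨1, by simp⟩
    · rw [h, ← h2, ← h1]; exact ⟨2, rfl⟩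
    · rw [h, ← h3, ← h2, ← h1]; exact ⟨3, rfl⟩

section
variable {D V E F : Type} [Fintype D] [Fintype V] [Fintype E] [Fintype F] (M : PM D V E F)

theorem fc4 (a b c d : D) (h1 : ph M a = b) (h2 : ph M b = c) (h3 : ph M c = d)
    (h4 : ph M d = a) (x : D) : M.fc x = M.fc a ↔ x = a ∨ x = b ∨ x = c ∨ x = d := by
  rw [eq_comm, M.fc_iff]
  exact cyc4 (M.σ * M.α) a b c d h1 h2 h3 h4 x

end

theorem sq : StmtSq := by
  intro K h V D E F _ _ _ _ L f M dE dW dU dN hH hL r i hr0 hrh hev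
  have hF := hH.flat
  obtain ⟨m, rfl⟩ := Int.eq_ofNat_of_zero_le hr0
  have hmh : m < h := by exact_mod_cast hrh
  have hme : Even m := by exact_mod_cast hev
  have hN : (1 : ZMod (3 * 2 ^ K)) ≠ 0 := by
    have : Fact (1 < 3 * 2 ^ K) := ⟨by
      have : 1 ≤ 2 ^ K := Nat.one_le_two_pow
      omega⟩
    exact one_ne_zero
  have inj1 : ∀ i j, f ((m : ℤ) + 1) i = f ((m : ℤ) + 1) j → i = j := by
    intro i j hij
    refine hF.inj (m + 1) i j (Nat.zero_le _) hmh ?_
    push_cast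
    exact hij
  have row1 : L.row (f ((m : ℤ) + 1) i) = (m : ℤ) + 1 := by
    have := hF.row (m + 1) i (Nat.zero_le _) hmh
    push_cast at this
    exact this
  have row0 : L.row (f (m : ℤ) i) = (m : ℤ) := hF.row m i (Nat.zero_le _) hmh.le
  have hne : f ((m : ℤ) + 1) i ≠ f ((m : ℤ) + 1) (i + 1) := by
    intro hh
    have := inj1 i (i + 1) hh
    apply hN
    have h2 : i + 0 = i + 1 := by rw [add_zero]; exact this
    exact (add_left_cancel h2).symm
  have he : L.e (f (m : ℤ) i) = f (m : ℤ) (i + 1) := hF.e m i (Nat.zero_le _) hmh.le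
  have he1 : L.e (f ((m : ℤ) + 1) i) = f ((m : ℤ) + 1) (i + 1) := by
    have := hF.e (m + 1) i (Nat.zero_le _) hmh
    push_cast at this
    exact this
  have upS : ∀ j k, L.up (f (m : ℤ) j) k ↔ k = f ((m : ℤ) + 1) j := fun j k =>
    hF.upS m j k (Nat.zero_le _) hmh hme
  have hs : L.e.symm (f (m : ℤ) (i + 1)) = f (m : ℤ) i := by rw [← he]; simp
  have hs1 : L.e.symm (f ((m : ℤ) + 1) (i + 1)) = f ((m : ℤ) + 1) i := by rw [← he1]; simp
  have up0 : L.up (f (m : ℤ) i) (f ((m : ℤ) + 1) i) := (upS i _).2 rfl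
  have up1 : L.up (f (m : ℤ) (i + 1)) (f ((m : ℤ) + 1) (i + 1)) := (upS (i + 1) _).2 rfl
  have nup : ¬ L.up (f (m : ℤ) i) (f ((m : ℤ) + 1) (i + 1)) := by
    rw [upS i _]
    exact fun hh => hne hh.symm
  have nup' : ¬ L.up (f (m : ℤ) (i + 1)) (f ((m : ℤ) + 1) i) := by
    rw [upS (i + 1) _]
    exact hne
  have p1 : ph M (dE (f (m : ℤ) i)) = dU (f (m : ℤ) (i + 1)) (f ((m : ℤ) + 1) (i + 1)) := by
    have := hL.E2 (f (m : ℤ) i) (f ((m : ℤ) + 1) (i + 1)) (by rw [he]; exact up1) (by rw [he, hs1]; exact nup')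
    rw [he] at this
    exact this
  have p2 : ph M (dU (f (m : ℤ) (i + 1)) (f ((m : ℤ) + 1) (i + 1))) = dW (f ((m : ℤ) + 1) i) := by
    have := hL.U2 (f (m : ℤ) (i + 1)) (f ((m : ℤ) + 1) (i + 1)) up1 (by rw [hs]; exact nup)
    rw [hs1] at this
    exact this
  have p3 : ph M (dW (f ((m : ℤ) + 1) i)) = dN (f (m : ℤ) i) (f ((m : ℤ) + 1) i) :=
    hL.W2 (f (m : ℤ) i) (f ((m : ℤ) + 1) i) up0 (by rw [he]; exact nup')
  have p4 : ph M (dN (f (m : ℤ) i) (f ((m : ℤ) + 1) i)) = dE (f (m : ℤ) i) :=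
    hL.N2 (f (m : ℤ) i) (f ((m : ℤ) + 1) i) up0 (by rw [he1]; exact nup)
  refine ⟨⟨?_, ?_⟩, ?_⟩
  · rw [p1, p2, p3, p4]
  · unfold T3
    rw [p1, p2, p3]
    intro hh
    have h1 := hL.vN (f (m : ℤ) i) (f ((m : ℤ) + 1) i) up0
    have h2 := hL.vE (f (m : ℤ) i)
    rw [hh, h2] at h1
    have h4 := row1
    rw [← h1, row0] at h4
    omega
  · intro x
    exact fc4 M _ _ _ _ p1 p2 p3 p4 x

end Pool.Agent.Helper87.UB
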