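import Pool.Agent.Helper74.UB.Goals1

/-!
# Packet UB-W
-/

set_option autoImplicit false

namespace Pool.Agent.Helper87.UB

open Finset Equiv Helper28.VF Pool.Agent.Helper74.UB
open scoped Classical

section
variable {D V E F : Type} [Fintype D] [Fintype V] [Fintype E] [Fintype F] (M : PM D V E F)

theorem fc_ph (d : D) : M.fc (ph M d) = M.fc d := by
  rw [M.fc_iff]
  have h : ph M d = (M.σ * M.α) d := rfl
  rw [h]
  exact (Equiv.Perm.sameCycle_apply_left).2 (Equiv.Perm.SameCycle.refl _ _)

theorem vt_ph (d : D) : M.vt (ph M d) = tg M d := by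
  unfold ph tg
  rw [M.vt_iff]
  exact (Equiv.Perm.sameCycle_apply_left).2 (Equiv.Perm.SameCycle.refl _ _)

theorem FA_symm {u v : V} (h : FA M u v) : FA M v u := by
  obtain ⟨d, e, h1, h2, h3⟩ := h
  exact ⟨e, d, h1.symm, h3, h2⟩

theorem SqE_symm {u v : V} (h : SqE M u v) : SqE M v u := by
  obtain ⟨d, h1, h2⟩ := h
  exact ⟨d, h1, h2.symm⟩

theorem SqE_FA {u v : V} (h : SqE M u v) : FA M u v := by
  obtain ⟨d, -, h2⟩ := h
  rcases h2 with ⟨h3, h4⟩ | ⟨h3, h4⟩
  · exact ⟨d, ph M d, (fc_ph M d).symm, h3, by rw [vt_ph, h4]⟩
  · exact ⟨ph M d, d, fc_ph M d, by rw [vt_ph, h4], h3⟩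

theorem SqE_ne (hM : Small M) {u v : V} (h : SqE M u v) : u ≠ v := by
  obtain ⟨d, -, h2⟩ := h
  have h0 := hM.noloop d
  rcases h2 with ⟨h3, h4⟩ | ⟨h3, h4⟩
  · rw [h3, h4] at h0
    exact fun h => h0 h.symm
  · rw [h3, h4] at h0
    exact h0

/-- The partner of a vertex in a pair. -/
theorem partner (hM : Small M) {O : Finset V} {P : Finset (V × V)} (hP : Pairs M O P) {p : V}
    (h : ∃ q ∈ P, q.1 = p ∨ q.2 = p) :
    ∃ q ∈ P, ∃ b ∈ O, b ≠ p ∧ SqE M b p ∧ ((q.1 = p ∧ q.2 = b) ∨ (q.1 = b ∧ q.2 = p)) := by
  obtain ⟨q, hq, h1⟩ := h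
  obtain ⟨ha, hb, hs⟩ := hP.mem q hq
  have hne := SqE_ne M hM hs
  rcases h1 with h1 | h1
  · refine ⟨q, hq, q.2, hb, ?_, ?_, Or.inl ⟨h1, rfl⟩⟩
    · rw [← h1]; exact hne.symm
    · rw [← h1]; exact SqE_symm M hs
  · refine ⟨q, hq, q.1, ha, ?_, ?_, Or.inr ⟨rfl, h1⟩⟩
    · rw [← h1]; exact hne
    · rw [← h1]; exact hs

end

theorem w (h1 : StmtLoss) (h2 : StmtOne) : StmtW := by
  intro D V E F _ _ _ _ M hM O P hl hc hne hP
  -- the pairs inside `X`
  let PX : Finset V → Finset (V × V) := fun X => P.filter fun q => q.1 ∈ X ∧ q.2 ∈ X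
  have key : ∀ k : ℕ, ∀ X : Finset V, X ⊆ O → X.Nonempty → (∀ q ∈ P, q.1 ∈ X ↔ q.2 ∈ X) →
      (bd M X).card + (PX X).card ≤ 4 + 3 * X.card → (O \ X).card = k →
      (bd M O).card + P.card ≤ 4 + 3 * O.card := by
    intro k
    induction k using Nat.strong_induction_on with
    | _ k ih =>
      intro X hXO hXne hcl hX hk
      by_cases hXeq : X = O
      · subst hXeq
        have : PX X = P := by
          apply Finset.filter_true_of_mem
          intro q hq
          exact ⟨(hP.mem q hq).1, (hP.mem q hq).2.1⟩
        rw [this] at hX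
        exact hX
      · obtain ⟨u, hu, p, hp, hpX, hup⟩ := hc X hXO hXne hXeq
        have hL := (h1 D V E F M hM X p hpX ⟨u, hu, hup⟩).1
        have hlp := hl p hp
        have hb1 : (bd M (insert p X)).card ≤ (bd M X).card + 3 := by
          rcases hL with h | h
          · omega
          · omega
        by_cases hpair : ∃ q ∈ P, q.1 = p ∨ q.2 = p
        · obtain ⟨q, hq, b, hbO, hbp, hsq, hqb⟩ := partner M hM hP hpair
          have hbX : b ∉ X := by
            intro hb
            rcases hqb with ⟨ha, hb'⟩ | ⟨ha, hb'⟩
            · have := (hcl q hq).2 (by rw [hb']; exact hb)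
              rw [ha] at this
              exact hpX this
            · have := (hcl q hq).1 (by rw [ha]; exact hb)
              rw [hb'] at this
              exact hpX this
          have hbX1 : b ∉ insert p X := by
            rw [Finset.mem_insert]
            push Not
            exact ⟨hbp, hbX⟩
          have hL2 := (h1 D V E F M hM (insert p X) b hbX1
            ⟨p, Finset.mem_insert_self _ _, FA_symm M (SqE_FA M hsq)⟩).2 p
            (Finset.mem_insert_self _ _) hsq
          have hlb := hl b hbO
          have hb2 : (bd M (insert b (insert p X))).card ≤ (bd M (insert p X)).card + 2 := by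
            rcases hL2 with h | h
            · omega
            · omega
          have hother : ∀ q' ∈ P, q' ≠ q → q'.1 ≠ p ∧ q'.1 ≠ b ∧ q'.2 ≠ p ∧ q'.2 ≠ b := by
            intro q' hq' hne'
            obtain ⟨e1, e2, e3, e4⟩ := hP.disj q' hq' q hq hne'
            rcases hqb with ⟨ha, hb'⟩ | ⟨ha, hb'⟩
            · rw [ha] at e1 e3
              rw [hb'] at e2 e4
              exact ⟨e1, e2, e3, e4⟩
            · rw [ha] at e1 e3
              rw [hb'] at e2 e4
              exact ⟨e2, e1, e4, e3⟩
          have hmem : ∀ q' ∈ P, q' ≠ q → ((q'.1 ∈ insert b (insert p X) ↔ q'.1 ∈ X) ∧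
              (q'.2 ∈ insert b (insert p X) ↔ q'.2 ∈ X)) := by
            intro q' hq' hne'
            obtain ⟨e1, e2, e3, e4⟩ := hother q' hq' hne'
            simp only [Finset.mem_insert]
            constructor
            · tauto
            · tauto
          have hPX : (PX (insert b (insert p X))).card ≤ (PX X).card + 1 := by
            have hsub : PX (insert b (insert p X)) ⊆ insert q (PX X) := by
              intro q' hq'
              rw [Finset.mem_filter] at hq'
              rw [Finset.mem_insert]
              by_cases hqq : q' = q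
              · exact Or.inl hqq
              · right
                rw [Finset.mem_filter]
                obtain ⟨m1, m2⟩ := hmem q' hq'.1 hqq
                exact ⟨hq'.1, m1.1 hq'.2.1, m2.1 hq'.2.2⟩
            exact (Finset.card_le_card hsub).trans (Finset.card_insert_le _ _)
          have hcard : (insert b (insert p X)).card = X.card + 2 := by
            rw [Finset.card_insert_of_notMem hbX1, Finset.card_insert_of_notMem hpX]
          have hsubO : insert b (insert p X) ⊆ O := by
            intro z hz
            rw [Finset.mem_insert, Finset.mem_insert] at hz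
            rcases hz with rfl | rfl | hz
            · exact hbO
            · exact hp
            · exact hXO hz
          refine ih _ ?_ (insert b (insert p X)) hsubO ⟨b, Finset.mem_insert_self _ _⟩ ?_ ?_ rfl
          · rw [← hk]
            apply Finset.card_lt_card
            rw [Finset.ssubset_iff_of_subset
              (Finset.sdiff_subset_sdiff (Finset.Subset.refl O)
                ((Finset.subset_insert p X).trans (Finset.subset_insert b _)))]
            exact ⟨p, Finset.mem_sdiff.2 ⟨hp, hpX⟩, fun h => (Finset.mem_sdiff.1 h).2 (by simp)⟩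
          · intro q' hq'
            by_cases hqq : q' = q
            · subst hqq
              rcases hqb with ⟨ha, hb'⟩ | ⟨ha, hb'⟩
              · rw [ha, hb']; simp
              · rw [ha, hb']; simp
            · obtain ⟨m1, m2⟩ := hmem q' hq' hqq
              rw [m1, m2]
              exact hcl q' hq'
          · rw [hcard]
            omega
        · push Not at hpair
          have hmem : ∀ q' ∈ P, ((q'.1 ∈ insert p X ↔ q'.1 ∈ X) ∧
              (q'.2 ∈ insert p X ↔ q'.2 ∈ X)) := by
            intro q' hq'
            obtain ⟨e1, e2⟩ := hpair q' hq'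
            simp only [Finset.mem_insert]
            constructor
            · tauto
            · tauto
          have hPX : PX (insert p X) = PX X := by
            apply Finset.filter_congr
            intro q' hq'
            obtain ⟨m1, m2⟩ := hmem q' hq'
            rw [m1, m2]
          have hcard : (insert p X).card = X.card + 1 := Finset.card_insert_of_notMem hpX
          have hsubO : insert p X ⊆ O := by
            intro z hz
            rw [Finset.mem_insert] at hz
            rcases hz with rfl | hz
            · exact hp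
            · exact hXO hz
          refine ih _ ?_ (insert p X) hsubO ⟨p, Finset.mem_insert_self _ _⟩ ?_ ?_ rfl
          · rw [← hk]
            apply Finset.card_lt_card
            rw [Finset.ssubset_iff_of_subset
              (Finset.sdiff_subset_sdiff (Finset.Subset.refl O) (Finset.subset_insert p X))]
            exact ⟨p, Finset.mem_sdiff.2 ⟨hp, hpX⟩, fun h => (Finset.mem_sdiff.1 h).2 (by simp)⟩
          · intro q' hq'
            obtain ⟨m1, m2⟩ := hmem q' hq'
            rw [m1, m2]
            exact hcl q' hq'
          · rw [hcard, hPX]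
            omega
  obtain ⟨p, hp⟩ := hne
  have hone := h2 D V E F M hM p
  have hlp := hl p hp
  by_cases hpair : ∃ q ∈ P, q.1 = p ∨ q.2 = p
  · obtain ⟨q, hq, b, hbO, hbp, hsq, hqb⟩ := partner M hM hP hpair
    have hbX1 : b ∉ ({p} : Finset V) := by
      rw [Finset.mem_singleton]
      exact hbp
    have hL2 := (h1 D V E F M hM {p} b hbX1
      ⟨p, Finset.mem_singleton_self _, FA_symm M (SqE_FA M hsq)⟩).2 p
      (Finset.mem_singleton_self _) hsq
    have hlb := hl b hbO
    have hother : ∀ q' ∈ P, q' ≠ q → q'.1 ≠ p ∧ q'.1 ≠ b ∧ q'.2 ≠ p ∧ q'.2 ≠ b := by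
      intro q' hq' hne'
      obtain ⟨e1, e2, e3, e4⟩ := hP.disj q' hq' q hq hne'
      rcases hqb with ⟨ha, hb'⟩ | ⟨ha, hb'⟩
      · rw [ha] at e1 e3
        rw [hb'] at e2 e4
        exact ⟨e1, e2, e3, e4⟩
      · rw [ha] at e1 e3
        rw [hb'] at e2 e4
        exact ⟨e2, e1, e4, e3⟩
    have hPX : (PX (insert b {p})).card ≤ 1 := by
      have hsub : PX (insert b {p}) ⊆ {q} := by
        intro q' hq'
        rw [Finset.mem_filter] at hq'
        rw [Finset.mem_singleton]
        by_contra hqq
        obtain ⟨e1, e2, e3, e4⟩ := hother q' hq'.1 hqq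
        have := hq'.2.1
        rw [Finset.mem_insert, Finset.mem_singleton] at this
        tauto
      exact (Finset.card_le_card hsub).trans (by simp)
    have hcard : (insert b ({p} : Finset V)).card = 2 := by
      rw [Finset.card_insert_of_notMem hbX1, Finset.card_singleton]
    refine key _ (insert b {p}) ?_ ⟨b, Finset.mem_insert_self _ _⟩ ?_ ?_ rfl
    · intro z hz
      rw [Finset.mem_insert, Finset.mem_singleton] at hz
      rcases hz with rfl | rfl
      · exact hbO
      · exact hp
    · intro q' hq'
      by_cases hqq : q' = q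
      · subst hqq
        rcases hqb with ⟨ha, hb'⟩ | ⟨ha, hb'⟩
        · rw [ha, hb']; simp
        · rw [ha, hb']; simp
      · obtain ⟨e1, e2, e3, e4⟩ := hother q' hq' hqq
        simp only [Finset.mem_insert, Finset.mem_singleton]
        tauto
    · rw [hcard]
      rcases hL2 with h | h
      · omega
      · omega
  · push Not at hpair
    refine key _ {p} ?_ ⟨p, Finset.mem_singleton_self _⟩ ?_ ?_ rfl
    · intro z hz
      rw [Finset.mem_singleton] at hz
      rw [hz]
      exact hp
    · intro q' hq'
      obtain ⟨e1, e2⟩ := hpair q' hq'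
      simp only [Finset.mem_singleton]
      tauto
    · have hPX : PX {p} = ∅ := by
        apply Finset.filter_false_of_mem
        intro q' hq'
        obtain ⟨e1, e2⟩ := hpair q' hq'
        simp only [Finset.mem_singleton]
        tauto
      rw [hPX, Finset.card_singleton, Finset.card_empty]
      omega

end Pool.Agent.Helper87.UB
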